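import Pool.Agent.Y727.PT.Stm

/-!
Cholesky factorisation.
-/

set_option autoImplicit false

namespace Pool.Agent.Y38.PT

open Pool.Agent.Y727.PT InnerProductSpace
open scoped ComplexOrder

open scoped MatrixOrder Matrix.Norms.L2Operator in
theorem exists_root {n : ℕ} {A : Matrix (Fin n) (Fin n) ℂ} (hA : A.PosSemidef) :
    ∃ C : Matrix (Fin n) (Fin n) ℂ, A = C.conjTranspose * C := by
  have h0 : 0 ≤ A := Matrix.nonneg_iff_posSemidef.mpr hA
  have h1 : (CFC.sqrt A).PosSemidef := Matrix.nonneg_iff_posSemidef.mp (CFC.sqrt_nonneg A)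
  refine ⟨CFC.sqrt A, ?_⟩
  rw [h1.isHermitian.eq]
  exact (CFC.sqrt_mul_sqrt_self A h0).symm

theorem t_chol : S_chol := by
  intro n A hA
  obtain ⟨C, hC⟩ := exists_root hA
  let v : Fin n → EuclideanSpace ℂ (Fin n) := fun i => WithLp.toLp 2 fun k => C k i
  have hcard : Module.finrank ℂ (EuclideanSpace ℂ (Fin n)) = Fintype.card (Fin n) := by
    simp
  let b := gramSchmidtOrthonormalBasis hcard v
  have hinner : ∀ i j, A i j = inner ℂ (v i) (v j) := by
    intro i j
    rw [hC, Matrix.mul_apply, PiLp.inner_apply]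
    refine Finset.sum_congr rfl fun k _ => ?_
    simp [v, Matrix.conjTranspose_apply, mul_comm]
  refine ⟨Matrix.of fun i j => inner ℂ (v i) (b j), ?_, ?_⟩
  · ext i j
    rw [hinner i j, Matrix.mul_apply, ← b.sum_inner_mul_inner (v i) (v j)]
    refine Finset.sum_congr rfl fun k _ => ?_
    rw [Matrix.conjTranspose_apply, Matrix.of_apply, Matrix.of_apply]
    congr 1
    exact (inner_conj_symm _ _).symm
  · intro i j hij
    rw [Matrix.of_apply, ← inner_conj_symm,
      gramSchmidtOrthonormalBasis_inv_triangular hcard v hij, map_zero]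

end Pool.Agent.Y38.PT
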