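import Pool.Agent.Y727.PT.Stm

/-!
The permanent of a product is a Fischer inner product of products of linear forms.
-/

set_option autoImplicit false

namespace Pool.Agent.Y38.PT

open MvPolynomial Pool.Agent.Y727.PT

/-- Content of a word. -/
noncomputable def cw {N m : ℕ} (g : Fin N → Fin m) : Fin m →₀ ℕ := ∑ t, Finsupp.single (g t) 1

theorem cw_apply {N m : ℕ} (g : Fin N → Fin m) (j : Fin m) :
    cw g j = Fintype.card {t // g t = j} := by
  classical
  unfold cw
  rw [Finsupp.finsetSum_apply, Fintype.card_subtype, Finset.card_filter]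
  refine Finset.sum_congr rfl fun t _ => ?_
  rw [Finsupp.single_apply]

theorem prod_lf {N m : ℕ} (U : Matrix (Fin N) (Fin m) ℂ) :
    ∏ t, lf (U t) = ∑ g : Fin N → Fin m, monomial (cw g) (∏ t, U t (g t)) := by
  unfold lf
  rw [Finset.prod_univ_sum, Fintype.piFinset_univ]
  refine Finset.sum_congr rfl fun g _ => ?_
  rw [cw, monomial_sum_index, Finset.prod_mul_distrib, map_prod]
  rfl

theorem count {N m : ℕ} (g h : Fin N → Fin m) :
    ((Finset.univ.filter fun σ : Equiv.Perm (Fin N) => g ∘ σ = h).card) =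
      if cw g = cw h then ∏ j, (cw g j).factorial else 0 := by
  classical
  split_ifs with hc
  · obtain ⟨σ0, h0⟩ : ∃ σ0 : Equiv.Perm (Fin N), g ∘ σ0 = h := by
      have e : ∀ j, Nonempty ({t // h t = j} ≃ {t // g t = j}) := fun j =>
        Fintype.card_eq.mp (by rw [← cw_apply, ← cw_apply, hc])
      exact ⟨Equiv.ofFiberEquiv fun j => (e j).some, funext fun t => Equiv.ofFiberEquiv_map _ t⟩
    have h1 : (Finset.univ.filter fun σ : Equiv.Perm (Fin N) => g ∘ σ = h).card =
        (Finset.univ.filter fun σ : Equiv.Perm (Fin N) => g ∘ σ = g).card := by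
      refine Finset.card_bij (fun σ _ => σ * σ0⁻¹) ?_ ?_ ?_
      · intro σ hσ
        rw [Finset.mem_filter] at hσ ⊢
        refine ⟨Finset.mem_univ _, ?_⟩
        funext t
        have h2 := congrFun hσ.2 (σ0⁻¹ t)
        have h3 := congrFun h0 (σ0⁻¹ t)
        have h4 : σ0 (σ0⁻¹ t) = t := σ0.apply_symm_apply t
        simp only [Function.comp_apply, Equiv.Perm.coe_mul] at h2 h3 ⊢
        rw [h2, ← h3, h4]
      · intro σ _ τ _ hst
        exact mul_right_cancel hst
      · intro τ hτ
        rw [Finset.mem_filter] at hτ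
        refine ⟨τ * σ0, ?_, by group⟩
        rw [Finset.mem_filter]
        refine ⟨Finset.mem_univ _, ?_⟩
        funext t
        have h2 := congrFun hτ.2 (σ0 t)
        have h3 := congrFun h0 t
        simp only [Function.comp_apply, Equiv.Perm.coe_mul] at h2 h3 ⊢
        rw [h2, h3]
    rw [h1, ← Fintype.card_subtype, DomMulAct.stabilizer_card]
    refine Finset.prod_congr rfl fun j _ => ?_
    rw [cw_apply]
  · rw [Finset.card_eq_zero, Finset.filter_eq_empty_iff]
    intro σ _ hσ
    apply hc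
    ext j
    rw [cw_apply, cw_apply, ← hσ]
    exact (Fintype.card_congr (σ.subtypeEquiv fun t => Iff.rfl)).symm

theorem ip_eq {m : ℕ} (P Q : MvPolynomial (Fin m) ℂ) (S : Finset (Fin m →₀ ℕ))
    (hS : P.support ⊆ S) :
    ip P Q = ∑ α ∈ S, ((∏ j, (α j).factorial : ℕ) : ℂ) * coeff α P *
      (starRingEnd ℂ) (coeff α Q) := by
  unfold ip
  refine Finset.sum_subset hS fun α _ hα => ?_
  rw [notMem_support_iff.mp hα]
  simp

theorem perm_eq {N m : ℕ} (U W : Matrix (Fin N) (Fin m) ℂ) :
    (U * W.conjTranspose).permanent = ∑ g : Fin N → Fin m, ∑ h : Fin N → Fin m,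
      (if cw g = cw h then ((∏ j, (cw g j).factorial : ℕ) : ℂ) else 0) * (∏ t, U t (h t)) *
        (starRingEnd ℂ) (∏ t, W t (g t)) := by
  classical
  unfold Matrix.permanent
  have h1 : ∀ σ : Equiv.Perm (Fin N), ∏ i, (U * W.conjTranspose) (σ i) i =
      ∑ g : Fin N → Fin m, (∏ t, U t (g (σ⁻¹ t))) * (starRingEnd ℂ) (∏ t, W t (g t)) := by
    intro σ
    simp only [Matrix.mul_apply, Matrix.conjTranspose_apply]
    rw [Finset.prod_univ_sum, Fintype.piFinset_univ]
    refine Finset.sum_congr rfl fun g _ => ?_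
    rw [Finset.prod_mul_distrib]
    congr 1
    · rw [← Equiv.prod_comp σ (fun t => U t (g (σ⁻¹ t)))]
      simp
    · rw [map_prod]
      rfl
  simp only [h1]
  rw [Finset.sum_comm]
  refine Finset.sum_congr rfl fun g _ => ?_
  rw [← Finset.sum_mul, ← Finset.sum_mul]
  congr 1
  rw [← Equiv.sum_comp (Equiv.inv (Equiv.Perm (Fin N)))]
  have h2 : ∀ σ : Equiv.Perm (Fin N), (∏ t, U t (g ((Equiv.inv _ σ)⁻¹ t))) =
      ∑ h : Fin N → Fin m, if g ∘ σ = h then ∏ t, U t (h t) else 0 := by
    intro σ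
    rw [Finset.sum_ite_eq, if_pos (Finset.mem_univ _)]
    simp
  simp only [h2]
  rw [Finset.sum_comm]
  refine Finset.sum_congr rfl fun h _ => ?_
  rw [← Finset.sum_filter, Finset.sum_const, count, nsmul_eq_mul]
  push_cast
  rfl

theorem t_gram : S_gram := by
  intro N m U W
  classical
  have hsub : (∏ t, lf (U t)).support ⊆ Finset.univ.image (cw : (Fin N → Fin m) → _) := by
    rw [prod_lf]
    refine (support_sum).trans ?_
    intro α hα
    rw [Finset.mem_biUnion] at hα
    obtain ⟨g, _, hg⟩ := hα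
    rw [Finset.mem_image]
    refine ⟨g, Finset.mem_univ _, ?_⟩
    exact (Finset.mem_singleton.mp (support_monomial_subset hg)).symm
  rw [ip_eq _ _ _ hsub, perm_eq]
  have hc : ∀ (V : Matrix (Fin N) (Fin m) ℂ) (α : Fin m →₀ ℕ), coeff α (∏ t, lf (V t)) =
      ∑ h : Fin N → Fin m, if cw h = α then ∏ t, V t (h t) else 0 := by
    intro V α
    rw [prod_lf, coeff_sum]
    refine Finset.sum_congr rfl fun h _ => ?_
    rw [coeff_monomial]
  have h3 : ∀ α : Fin m →₀ ℕ, ((∏ j, (α j).factorial : ℕ) : ℂ) * coeff α (∏ t, lf (U t)) *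
      (starRingEnd ℂ) (coeff α (∏ t, lf (W t))) = ∑ g : Fin N → Fin m, ∑ h : Fin N → Fin m,
        if cw g = α then (if cw g = cw h then ((∏ j, (cw g j).factorial : ℕ) : ℂ) else 0) *
          (∏ t, U t (h t)) * (starRingEnd ℂ) (∏ t, W t (g t)) else 0 := by
    intro α
    rw [hc, hc, map_sum, Finset.mul_sum]
    refine Finset.sum_congr rfl fun g _ => ?_
    rw [Finset.mul_sum, Finset.sum_mul]
    refine Finset.sum_congr rfl fun h _ => ?_
    by_cases hg : cw g = α
    · subst hg
      by_cases hh : cw h = cw g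
      · simp [hh]
      · simp [hh, Ne.symm hh]
    · simp [hg]
  simp only [h3]
  symm
  rw [Finset.sum_comm]
  refine Finset.sum_congr rfl fun g _ => ?_
  rw [Finset.sum_comm]
  refine Finset.sum_congr rfl fun h _ => ?_
  rw [Finset.sum_ite_eq, if_pos (Finset.mem_image_of_mem _ (Finset.mem_univ _))]

end Pool.Agent.Y38.PT
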