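import Pool.Agent.Y38.PT.Gram

/-!
The key inequality, in coordinates.
-/

set_option autoImplicit false

namespace Pool.Agent.Y38.PT

open MvPolynomial Pool.Agent.Y727.PT

/-- The weights. -/
noncomputable def E (x y : ℝ) : ℕ → ℝ → ℝ
  | 0, q => y * q + 4 * x
  | 1, q => 5 / 2 * y * q + 5 * x
  | (p + 2), q => 2 * ((p : ℝ) + 3) * ((p : ℝ) + 4) / ((p : ℝ) + 5) * y * q

theorem E_pos {x y : ℝ} (hx : 0 ≤ x) (hy : 0 < y) (p : ℕ) {q : ℝ} (hq : 0 < q) :
    0 < E x y p q := by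
  match p with
  | 0 => simp only [E]; positivity
  | 1 => simp only [E]; positivity
  | (p + 2) => simp only [E]; positivity

theorem E_nonneg {x y : ℝ} (hx : 0 ≤ x) (hy : 0 < y) (p : ℕ) {q : ℝ} (hq : 0 ≤ q) :
    0 ≤ E x y p q := by
  match p with
  | 0 => simp only [E]; positivity
  | 1 => simp only [E]; positivity
  | (p + 2) => simp only [E]; positivity

theorem scal_core {x y : ℝ} (hx : 0 ≤ x) (hy : 0 < y) (p : ℕ) {q : ℝ} (hq : 0 ≤ q) :
    E x y p q + (if p = 0 then 0 else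
      4 * x * y * ((p : ℝ) + 1) ^ 2 * p * (q + 1) / E x y (p - 1) (q + 1)) ≤
      y * ((2 * p + 1) * q + p) + 2 * x * (p + 1) * (p + 2) := by
  match p with
  | 0 =>
    simp only [E, if_true]
    push_cast
    nlinarith
  | 1 =>
    simp only [E, one_ne_zero, if_false, Nat.sub_self]
    push_cast
    have hz : 0 < y * (q + 1) := by positivity
    have h1 : 4 * x * y * ((1 : ℝ) + 1) ^ 2 * 1 * (q + 1) / (y * (q + 1) + 4 * x) ≤
        y * (q + 1) / 2 + 7 * x := by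
      rw [div_le_iff₀ (by positivity)]
      nlinarith [sq_nonneg (y * (q + 1) - 7 * x), sq_nonneg x]
    nlinarith
  | 2 =>
    simp only [E, OfNat.ofNat_ne_zero, if_false, Nat.add_one_sub_one]
    push_cast
    have hz : 0 < y * (q + 1) := by positivity
    have h1 : 4 * x * y * ((2 : ℝ) + 1) ^ 2 * 2 * (q + 1) / (5 / 2 * y * (q + 1) + 5 * x) ≤
        y * (q + 1) / 5 + 24 * x := by
      rw [div_le_iff₀ (by positivity)]
      nlinarith [sq_nonneg (y * (q + 1) - 11 * x), sq_nonneg x]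
    nlinarith [mul_nonneg hy.le hq]
  | (p + 3) =>
    have h0 : (p + 3 - 1 : ℕ) = p + 2 := by omega
    have h0' : (p + 3 : ℕ) = (p + 1) + 2 := by omega
    rw [if_neg (by omega), h0]
    have h1 : E x y (p + 3) q = 2 * ((p : ℝ) + 4) * ((p : ℝ) + 5) / ((p : ℝ) + 6) * y * q := by
      rw [h0']
      simp only [E]
      push_cast
      ring
    have h2 : E x y (p + 2) (q + 1) =
        2 * ((p : ℝ) + 3) * ((p : ℝ) + 4) / ((p : ℝ) + 5) * y * (q + 1) := rfl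
    rw [h1, h2]
    have h3 : 4 * x * y * (((p + 3 : ℕ) : ℝ) + 1) ^ 2 * ((p + 3 : ℕ) : ℝ) * (q + 1) /
        (2 * ((p : ℝ) + 3) * ((p : ℝ) + 4) / ((p : ℝ) + 5) * y * (q + 1)) =
        2 * x * (((p + 3 : ℕ) : ℝ) + 1) * (((p + 3 : ℕ) : ℝ) + 2) := by
      push_cast
      have ha : ((p : ℝ) + 3) ≠ 0 := by positivity
      have hb : ((p : ℝ) + 4) ≠ 0 := by positivity
      have hc : ((p : ℝ) + 5) ≠ 0 := by positivity
      have hd : (q + 1) ≠ 0 := by positivity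
      field_simp
      ring
    rw [h3]
    have h4 : 2 * ((p : ℝ) + 4) * ((p : ℝ) + 5) / ((p : ℝ) + 6) ≤ 2 * ((p : ℝ) + 3) + 1 := by
      rw [div_le_iff₀ (by positivity)]
      nlinarith [(Nat.cast_nonneg p : (0 : ℝ) ≤ p)]
    have h5 : 2 * ((p : ℝ) + 4) * ((p : ℝ) + 5) / ((p : ℝ) + 6) * y * q ≤
        (2 * ((p : ℝ) + 3) + 1) * y * q := by
      have h6 : 0 ≤ y * q := by positivity
      nlinarith [mul_le_mul_of_nonneg_right h4 h6]
    push_cast
    have h7 : 0 ≤ y * ((p : ℝ) + 3) := by positivity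
    nlinarith

theorem scal {x y : ℝ} (hx : 0 ≤ x) (hy : 0 < y) (p q : ℕ) :
    y * ((p : ℝ) + q + 2) ≤
      ((p : ℝ) + 1) * (p + 2) *
        (2 * x - if q = 0 then 0 else E x y p q / (((p : ℝ) + 1) * (p + 2))) +
      ((p : ℝ) + 1) * (q + 1) *
        (2 * y - if p = 0 then 0 else
          4 * x * y * (p + 1) * p / E x y (p - 1) ((q : ℝ) + 1)) := by
  have h1 := scal_core hx hy p (q := (q : ℝ)) (Nat.cast_nonneg q)
  have h2 : ((p : ℝ) + 1) * (p + 2) * (2 * x) - E x y p q ≤ ((p : ℝ) + 1) * (p + 2) *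
        (2 * x - if q = 0 then 0 else E x y p q / (((p : ℝ) + 1) * (p + 2))) := by
    split_ifs with h
    · have := E_nonneg hx hy p (q := (q : ℝ)) (Nat.cast_nonneg q)
      nlinarith
    · rw [mul_sub, mul_div_cancel₀]
      positivity
  have h3 : ((p : ℝ) + 1) * (q + 1) *
        (2 * y - if p = 0 then 0 else
          4 * x * y * (p + 1) * p / E x y (p - 1) ((q : ℝ) + 1)) =
      ((p : ℝ) + 1) * (q + 1) * (2 * y) - (if p = 0 then 0 else
      4 * x * y * ((p : ℝ) + 1) ^ 2 * p * (q + 1) / E x y (p - 1) ((q : ℝ) + 1)) := by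
    split_ifs with h
    · ring
    · ring
  rw [h3]
  nlinarith

theorem cpx {β γ u v : ℂ} {t : ℝ} (ht : 0 < t) :
    (‖β‖ ^ 2 - t) * ‖u‖ ^ 2 + (‖γ‖ ^ 2 - ‖β‖ ^ 2 * ‖γ‖ ^ 2 / t) * ‖v‖ ^ 2 ≤
      ‖β * u + γ * v‖ ^ 2 := by
  have h1 : |‖β‖ * ‖u‖ - ‖γ‖ * ‖v‖| ≤ ‖β * u + γ * v‖ := by
    have h := abs_norm_sub_norm_le (β * u) (-(γ * v))
    rw [norm_neg, norm_mul, norm_mul, sub_neg_eq_add] at h
    exact h
  have h2 : (‖β‖ * ‖u‖ - ‖γ‖ * ‖v‖) ^ 2 ≤ ‖β * u + γ * v‖ ^ 2 := by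
    rw [← sq_abs]
    exact pow_le_pow_left₀ (abs_nonneg _) h1 2
  have h3 : 2 * (‖β‖ * ‖u‖) * (‖γ‖ * ‖v‖) ≤
      t * ‖u‖ ^ 2 + ‖β‖ ^ 2 * ‖γ‖ ^ 2 / t * ‖v‖ ^ 2 := by
    have h4 : 0 ≤ (t * ‖u‖ - ‖β‖ * ‖γ‖ * ‖v‖) ^ 2 / t := by positivity
    have h5 : (t * ‖u‖ - ‖β‖ * ‖γ‖ * ‖v‖) ^ 2 / t =
        t * ‖u‖ ^ 2 + ‖β‖ ^ 2 * ‖γ‖ ^ 2 / t * ‖v‖ ^ 2 - 2 * (‖β‖ * ‖u‖) * (‖γ‖ * ‖v‖) := by
      field_simp
      ring
    linarith
  nlinarith

/-- The product of factorials. -/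
noncomputable def Nf {m : ℕ} (a : Fin m →₀ ℕ) : ℝ := ((∏ j, (a j).factorial : ℕ) : ℝ)

theorem Nf_pos {m : ℕ} (a : Fin m →₀ ℕ) : 0 < Nf a := by
  unfold Nf
  exact_mod_cast Finset.prod_pos fun j _ => Nat.factorial_pos _

theorem Nf_add {m : ℕ} (a : Fin m →₀ ℕ) (j : Fin m) :
    Nf (a + Finsupp.single j 1) = Nf a * ((a j : ℝ) + 1) := by
  classical
  have e1 : ∏ i, ((a + Finsupp.single j 1 : Fin m →₀ ℕ) i).factorial =
      ((a + Finsupp.single j 1 : Fin m →₀ ℕ) j).factorial *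
        ∏ i ∈ Finset.univ.erase j, ((a + Finsupp.single j 1 : Fin m →₀ ℕ) i).factorial :=
    (Finset.mul_prod_erase Finset.univ
      (fun i => ((a + Finsupp.single j 1 : Fin m →₀ ℕ) i).factorial) (Finset.mem_univ j)).symm
  have e2 : ∏ i, (a i).factorial = (a j).factorial * ∏ i ∈ Finset.univ.erase j, (a i).factorial :=
    (Finset.mul_prod_erase Finset.univ (fun i => (a i).factorial) (Finset.mem_univ j)).symm
  have h1 : ∏ i ∈ Finset.univ.erase j, ((a + Finsupp.single j 1 : Fin m →₀ ℕ) i).factorial =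
      ∏ i ∈ Finset.univ.erase j, (a i).factorial := by
    refine Finset.prod_congr rfl fun i hi => ?_
    have hi' : i ≠ j := (Finset.mem_erase.mp hi).1
    rw [Finsupp.add_apply, Finsupp.single_apply, if_neg (Ne.symm hi'), add_zero]
  unfold Nf
  rw [e1, e2, h1]
  simp only [Finsupp.add_apply, Finsupp.single_eq_same, Nat.factorial_succ]
  push_cast
  ring

theorem ip_re {m : ℕ} (P : MvPolynomial (Fin m) ℂ) (S : Finset (Fin m →₀ ℕ))
    (hS : P.support ⊆ S) : (ip P P).re = ∑ α ∈ S, Nf α * ‖coeff α P‖ ^ 2 := by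
  rw [ip_eq P P S hS, Complex.re_sum]
  refine Finset.sum_congr rfl fun α _ => ?_
  rw [mul_assoc, Complex.mul_conj, Complex.normSq_eq_norm_sq]
  unfold Nf
  norm_cast

theorem shift {m : ℕ} (R : MvPolynomial (Fin m) ℂ) (s : Fin m →₀ ℕ) (f : (Fin m →₀ ℕ) → ℝ)
    (D : Finset (Fin m →₀ ℕ)) (hD : R.support.image (fun a => a + s) ⊆ D) :
    ∑ δ ∈ D, f δ * ‖coeff δ (monomial s 1 * R)‖ ^ 2 =
      ∑ a ∈ R.support, f (a + s) * ‖coeff a R‖ ^ 2 := by
  classical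
  have h1 : ∑ a ∈ R.support, f (a + s) * ‖coeff a R‖ ^ 2 =
      ∑ δ ∈ R.support.image (fun a => a + s), f δ * ‖coeff δ (monomial s 1 * R)‖ ^ 2 := by
    rw [Finset.sum_image fun a _ b _ h => add_right_cancel h]
    refine Finset.sum_congr rfl fun a _ => ?_
    rw [add_comm a s, coeff_monomial_mul, one_mul]
  rw [h1]
  symm
  refine Finset.sum_subset hD fun δ _ hδ => ?_
  have h2 : coeff δ (monomial s 1 * R) = 0 := by
    rw [coeff_monomial_mul']
    split_ifs with h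
    · rw [one_mul]
      by_contra hne
      apply hδ
      rw [Finset.mem_image]
      exact ⟨δ - s, mem_support_iff.mpr hne, tsub_add_cancel_of_le h⟩
    · rfl
  rw [h2]
  simp

theorem supp_shift {m : ℕ} (R : MvPolynomial (Fin m) ℂ) (s : Fin m →₀ ℕ) [DecidableEq (Fin m →₀ ℕ)] :
    (monomial s 1 * R).support ⊆ R.support.image (fun a => a + s) := by
  intro δ hδ
  rw [mem_support_iff, coeff_monomial_mul'] at hδ
  split_ifs at hδ with h
  · rw [Finset.mem_image]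
    refine ⟨δ - s, mem_support_iff.mpr ?_, tsub_add_cancel_of_le h⟩
    rwa [one_mul] at hδ
  · exact absurd rfl hδ

theorem ip_X {m : ℕ} (R : MvPolynomial (Fin m) ℂ) (j : Fin m) :
    (ip (X j * R) (X j * R)).re = ∑ a ∈ R.support, Nf a * ((a j : ℝ) + 1) * ‖coeff a R‖ ^ 2 := by
  classical
  rw [ip_re (X j * R) _ (supp_shift R (Finsupp.single j 1))]
  have h := shift R (Finsupp.single j 1) Nf _ (Finset.Subset.refl _)
  rw [show (X j : MvPolynomial (Fin m) ℂ) = monomial (Finsupp.single j 1) 1 from rfl, h]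
  refine Finset.sum_congr rfl fun a _ => ?_
  rw [Nf_add]

/-- The first weight. -/
noncomputable def f1 {m : ℕ} (x y : ℝ) (δ : Fin (m + 2) →₀ ℕ) : ℝ :=
  Nf δ * (2 * x - if δ 1 = 0 then 0 else E x y (δ 0 - 2) (δ 1) / (((δ 0 : ℝ) - 1) * δ 0))

/-- The second weight. -/
noncomputable def f2 {m : ℕ} (x y : ℝ) (δ : Fin (m + 2) →₀ ℕ) : ℝ :=
  Nf δ * (2 * y - if δ 0 ≤ 1 then 0 else
    4 * x * y * (δ 0) * ((δ 0 : ℝ) - 1) / E x y (δ 0 - 2) (δ 1))

theorem t_key : S_key := by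
  intro m R β γ
  classical
  rcases (norm_nonneg γ).eq_or_lt with hγ | hγ
  · rw [← hγ]
    have h0 : 0 ≤ (ip (X 0 * ((C β * X 0 + C γ * X 1) * R))
        (X 0 * ((C β * X 0 + C γ * X 1) * R))).re := by
      rw [ip_re _ _ (Finset.Subset.refl _)]
      exact Finset.sum_nonneg fun α _ => mul_nonneg (Nf_pos α).le (by positivity)
    nlinarith
  have hx : 0 ≤ ‖β‖ ^ 2 := by positivity
  have hy : 0 < ‖γ‖ ^ 2 := by positivity
  set s : Fin (m + 2) →₀ ℕ := Finsupp.single 0 1 + Finsupp.single 0 1 with hs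
  set s' : Fin (m + 2) →₀ ℕ := Finsupp.single 0 1 + Finsupp.single 1 1 with hs'
  have h01 : (0 : Fin (m + 2)) ≠ 1 := by
    intro h
    have := congrArg Fin.val h
    simp at this
  have hP : X 0 * ((C β * X 0 + C γ * X 1) * R) =
      C β * (monomial s 1 * R) + C γ * (monomial s' 1 * R) := by
    have e1 : (monomial s 1 : MvPolynomial (Fin (m + 2)) ℂ) = X 0 * X 0 := by
      rw [X, monomial_mul, one_mul]
    have e2 : (monomial s' 1 : MvPolynomial (Fin (m + 2)) ℂ) = X 0 * X 1 := by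
      rw [X, X, monomial_mul, one_mul]
    rw [e1, e2]
    ring
  have hco : ∀ δ, coeff δ (X 0 * ((C β * X 0 + C γ * X 1) * R)) =
      β * coeff δ (monomial s 1 * R) + γ * coeff δ (monomial s' 1 * R) := by
    intro δ
    rw [hP, coeff_add, coeff_C_mul, coeff_C_mul]
  set D := R.support.image (fun a => a + s) ∪ R.support.image (fun a => a + s') with hD
  have hsub : (X 0 * ((C β * X 0 + C γ * X 1) * R)).support ⊆ D := by
    intro δ hδ
    rw [mem_support_iff, hco] at hδ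
    by_contra hn
    rw [hD, Finset.mem_union, not_or] at hn
    have h1 : coeff δ (monomial s 1 * R) = 0 := by
      by_contra h
      exact hn.1 (supp_shift R s (mem_support_iff.mpr h))
    have h2 : coeff δ (monomial s' 1 * R) = 0 := by
      by_contra h
      exact hn.2 (supp_shift R s' (mem_support_iff.mpr h))
    apply hδ
    rw [h1, h2]
    ring
  have hs0 : s 0 = 2 := by simp [hs]
  have hs1 : s 1 = 0 := by simp [hs]
  have hs'0 : s' 0 = 1 := by simp [hs']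
  have hs'1 : s' 1 = 1 := by simp [hs']
  have hpt : ∀ δ : Fin (m + 2) →₀ ℕ,
      f1 (‖β‖ ^ 2) (‖γ‖ ^ 2) δ * ‖coeff δ (monomial s 1 * R)‖ ^ 2 +
      f2 (‖β‖ ^ 2) (‖γ‖ ^ 2) δ * ‖coeff δ (monomial s' 1 * R)‖ ^ 2 ≤
      2 * (Nf δ * ‖coeff δ (X 0 * ((C β * X 0 + C γ * X 1) * R))‖ ^ 2) := by
    intro δ
    rw [hco]
    have hN := Nf_pos δ
    rcases Nat.eq_zero_or_pos (δ 1) with h1 | h1
    · have hv : coeff δ (monomial s' 1 * R) = 0 := by
        rw [coeff_monomial_mul', if_neg]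
        intro h
        have := h 1
        omega
      rw [hv, f1, if_pos h1]
      simp only [mul_zero, add_zero, norm_zero, norm_mul]
      nlinarith
    rcases Nat.lt_or_ge 1 (δ 0) with h0 | h0
    · have hE : 0 < E (‖β‖ ^ 2) (‖γ‖ ^ 2) (δ 0 - 2) (δ 1) :=
        E_pos hx hy _ (by exact_mod_cast h1)
      have hd0 : (1 : ℝ) < (δ 0 : ℝ) := by exact_mod_cast h0
      have hd : 0 < ((δ 0 : ℝ) - 1) * δ 0 := mul_pos (by linarith) (by linarith)
      have ht : 0 < E (‖β‖ ^ 2) (‖γ‖ ^ 2) (δ 0 - 2) (δ 1) / (((δ 0 : ℝ) - 1) * δ 0) / 2 := by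
        positivity
      have hc := cpx (β := β) (γ := γ) (u := coeff δ (monomial s 1 * R))
        (v := coeff δ (monomial s' 1 * R)) ht
      have hc2 := mul_le_mul_of_nonneg_left hc (by positivity : 0 ≤ 2 * Nf δ)
      rw [f1, f2, if_neg (by omega), if_neg (by omega)]
      refine le_trans (le_of_eq ?_) (le_trans hc2 (le_of_eq ?_))
      · have hne : ((δ 0 : ℝ) - 1) ≠ 0 := by linarith
        have hne2 : (δ 0 : ℝ) ≠ 0 := by linarith
        field_simp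
        ring
      · ring
    · have hv : coeff δ (monomial s 1 * R) = 0 := by
        rw [coeff_monomial_mul', if_neg]
        intro h
        have := h 0
        omega
      rw [hv, f2, if_pos h0]
      simp only [mul_zero, zero_add, norm_zero, norm_mul]
      nlinarith
  have hsum : ∑ a ∈ R.support, f1 (‖β‖ ^ 2) (‖γ‖ ^ 2) (a + s) * ‖coeff a R‖ ^ 2 +
      ∑ a ∈ R.support, f2 (‖β‖ ^ 2) (‖γ‖ ^ 2) (a + s') * ‖coeff a R‖ ^ 2 ≤
      2 * (ip (X 0 * ((C β * X 0 + C γ * X 1) * R))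
        (X 0 * ((C β * X 0 + C γ * X 1) * R))).re := by
    rw [ip_re _ D hsub, ← shift R s _ D Finset.subset_union_left,
      ← shift R s' _ D Finset.subset_union_right, ← Finset.sum_add_distrib, Finset.mul_sum]
    exact Finset.sum_le_sum fun δ _ => hpt δ
  refine le_trans ?_ hsum
  rw [ip_X, ip_X, ← Finset.sum_add_distrib, ← Finset.sum_add_distrib, Finset.mul_sum]
  refine Finset.sum_le_sum fun a _ => ?_
  have hN := Nf_pos a
  have hf1 : f1 (‖β‖ ^ 2) (‖γ‖ ^ 2) (a + s) = Nf a * (((a 0 : ℝ) + 1) * ((a 0 : ℝ) + 2) *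
      (2 * ‖β‖ ^ 2 - if a 1 = 0 then 0 else
        E (‖β‖ ^ 2) (‖γ‖ ^ 2) (a 0) (a 1) / (((a 0 : ℝ) + 1) * (a 0 + 2)))) := by
    have e0 : (a + s) 0 = a 0 + 2 := by rw [Finsupp.add_apply, hs0]
    have e1 : (a + s) 1 = a 1 := by rw [Finsupp.add_apply, hs1, add_zero]
    have e2 : Nf (a + s) = Nf a * (((a 0 : ℝ) + 1) * ((a 0 : ℝ) + 2)) := by
      rw [hs, ← add_assoc, Nf_add, Nf_add, Finsupp.add_apply, Finsupp.single_eq_same]
      push_cast
      ring
    rw [f1, e0, e1, e2, Nat.add_sub_cancel]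
    push_cast
    rw [show (a 0 : ℝ) + 2 - 1 = (a 0 : ℝ) + 1 by ring]
    ring
  have hf2 : f2 (‖β‖ ^ 2) (‖γ‖ ^ 2) (a + s') = Nf a * (((a 0 : ℝ) + 1) * ((a 1 : ℝ) + 1) *
      (2 * ‖γ‖ ^ 2 - if a 0 = 0 then 0 else
        4 * ‖β‖ ^ 2 * ‖γ‖ ^ 2 * (a 0 + 1) * a 0 /
          E (‖β‖ ^ 2) (‖γ‖ ^ 2) (a 0 - 1) ((a 1 : ℝ) + 1))) := by
    have e0 : (a + s') 0 = a 0 + 1 := by rw [Finsupp.add_apply, hs'0]
    have e1 : (a + s') 1 = a 1 + 1 := by rw [Finsupp.add_apply, hs'1]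
    have e2 : Nf (a + s') = Nf a * (((a 0 : ℝ) + 1) * ((a 1 : ℝ) + 1)) := by
      rw [hs', ← add_assoc, Nf_add, Nf_add, Finsupp.add_apply, Finsupp.single_apply, if_neg h01,
        add_zero]
      ring
    rw [f2, e0, e1, e2]
    have e3 : a 0 + 1 - 2 = a 0 - 1 := by omega
    rw [e3]
    push_cast
    by_cases h : a 0 = 0
    · rw [if_pos (by omega), if_pos h]
      ring
    · rw [if_neg (by omega), if_neg h]
      rw [show (a 0 : ℝ) + 1 - 1 = (a 0 : ℝ) by ring]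
      ring
  rw [hf1, hf2]
  have hsc := scal hx hy (a 0) (a 1)
  have h5 : 0 ≤ Nf a * ‖coeff a R‖ ^ 2 := by positivity
  have h6 := mul_le_mul_of_nonneg_right hsc h5
  refine le_trans (le_of_eq ?_) (le_trans h6 (le_of_eq ?_))
  · ring
  · ring

end Pool.Agent.Y38.PT
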